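import Pool.Agent.H97.Pl3

set_option autoImplicit false

namespace Pool.Agent.Results.MP_4043ba_gt.Universal

open Finset Metric Filter Topology Pool.Agent.H97.Pl

theorem sq_lim {f : ℕ → ℝ} {γ C : ℝ} (h1 : ∀ k : ℕ, k * γ ≤ f k)
    (h2 : ∀ k : ℕ, f k ≤ (k + C) * γ) : Tendsto (fun k : ℕ => f k / k) atTop (𝓝 γ) := by
  have h := (tendsto_const_div_atTop_nhds_zero_nat (C * γ)).const_add γ
  rw [add_zero] at h
  refine tendsto_of_tendsto_of_tendsto_of_le_of_le' tendsto_const_nhds h ?_ ?_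
  · filter_upwards [eventually_gt_atTop 0] with k hk
    rw [le_div_iff₀' (by exact_mod_cast hk)]
    exact h1 k
  · filter_upwards [eventually_gt_atTop 0] with k hk
    have : (0 : ℝ) < k := by exact_mod_cast hk
    rw [div_le_iff₀ this, add_mul, div_mul_cancel₀ _ this.ne']
    linarith [h2 k]

theorem cd_lim {d : ℕ} (hd : d = 2 ∨ d = 3) {γ : ℝ} (γ0 : 0 ≤ γ)
    (h1 : ∀ K : Set (E d), IsBody K → γ ≤ 2 * inrad K / width K)
    (h2 : ∃ K : Set (E d), IsBody K ∧ 2 * inrad K / width K ≤ γ) (k : ℕ) :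
    k * γ ≤ cd d k ∧ cd d k ≤ (k + (d + 1)) * γ := by
  obtain ⟨K, hK, h2⟩ := h2
  have l : ∀ c ∈ {c | ∃ K : Set (E d), IsBody K ∧ c = cK K k}, k * γ ≤ c := by
    rintro _ ⟨L, hL, rfl⟩
    exact (mul_le_mul_of_nonneg_left (h1 L hL) (Nat.cast_nonneg k)).trans (cK_lower hd hL k)
  exact ⟨le_csInf ⟨_, K, hK, rfl⟩ l, (csInf_le ⟨_, l⟩ ⟨K, hK, rfl⟩).trans
    ((cK_upper (by omega) hK k).trans (mul_le_mul_of_nonneg_left h2 (by positivity)))⟩

theorem cK_le_k {d : ℕ} (hd : 0 < d) {K : Set (E d)} (h : IsBody K) (k : ℕ) : cK K k ≤ k := by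
  have w0 := width_pos hd h
  have a : ∀ θ : E d, ‖θ‖ = 1 → cK K k * width K ≤ k * (supp K θ + supp K (-θ)) := by
    intro θ hθ
    have b : ∀ x ∈ K, -supp K (-θ) ≤ inner ℝ x θ ∧ inner ℝ x θ ≤ supp K θ := fun x hx => by
      have := le_supp h hx (-θ)
      rw [inner_neg_right] at this
      exact ⟨by linarith, le_supp h hx θ⟩
    obtain ⟨x, hx⟩ := h.ne
    have := cK_le hd h (k := k) ⟨k, fun _ => θ, fun _ => -supp K (-θ), fun _ => supp K θ,
      fun _ => ⟨hθ, (b x hx).1.trans (b x hx).2⟩, fun y hy => by simp [b y hy], rfl⟩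
    rw [le_div_iff₀ w0] at this
    simpa [mul_add] using this
  rcases Nat.eq_zero_or_pos k with rfl | hk
  · have := a (EuclideanSpace.single ⟨0, hd⟩ 1) (by simp)
    simp only [Nat.cast_zero, zero_mul] at this ⊢
    nlinarith
  have hk : (0 : ℝ) < k := by exact_mod_cast hk
  have := le_width (K := K) hd (t := cK K k * width K / k) fun θ hθ => by
    rw [div_le_iff₀' hk]; exact a θ hθ
  rw [div_le_iff₀ hk] at this
  nlinarith

theorem ball_eq {d : ℕ} (hd : d = 2 ∨ d = 3) (c : E d) {ρ : ℝ} (hρ : 0 < ρ) (k : ℕ) :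
    cK (closedBall c ρ) k = k := by
  have d0 : 0 < d := by omega
  have h : IsBody (closedBall c ρ) := ⟨isCompact_closedBall _ _, convex_closedBall _ _,
    ⟨c, ball_subset_interior_closedBall (mem_ball_self hρ)⟩⟩
  refine le_antisymm (cK_le_k d0 h k) (le_trans ?_ (cK_lower hd h k))
  refine le_mul_of_one_le_right (Nat.cast_nonneg _) ?_
  rw [one_le_div (width_pos d0 h)]
  have h1 := le_inrad d0 h hρ.le subset_rfl
  have h2 := width_mul h (v := EuclideanSpace.single ⟨0, d0⟩ 1) (r := 2 * ρ) (by linarith)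
    fun x hx y hy => by
      have := real_inner_le_norm (x - y) (EuclideanSpace.single (⟨0, d0⟩ : Fin d) (1 : ℝ))
      have h3 := dist_triangle_right x y c
      rw [mem_closedBall] at hx hy
      rw [inner_sub_left, ← dist_eq_norm, PiLp.norm_single, norm_one] at this
      linarith
  rw [PiLp.norm_single, norm_one] at h2
  linarith

theorem poly {d n : ℕ} (v : Fin n → E d) (b R ρ : ℝ) (hρ : 0 < ρ) (h1 : ∀ i, ρ * ‖v i‖ = b)
    (h2 : ∀ x : E d, (∀ i, inner ℝ x (v i) ≤ b) → ‖x‖ ^ 2 ≤ R) (hn : 0 < n)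
    (h3 : ∑ i, v i = 0) (hb : 0 < b) :
    IsBody {x : E d | ∀ i, inner ℝ x (v i) ≤ b} ∧
      inrad {x : E d | ∀ i, inner ℝ x (v i) ≤ b} ≤ ρ := by
  have hK : IsBody {x : E d | ∀ i, inner ℝ x (v i) ≤ b} := by
    refine ⟨(isCompact_closedBall (0 : E d) (Real.sqrt R)).of_isClosed_subset ?_
      (fun x hx => mem_closedBall_zero_iff.2 (Real.le_sqrt_of_sq_le (h2 x hx))), ?_, 0, ?_⟩
    · rw [Set.ofPred_forall]
      exact isClosed_iInter fun i => isClosed_le (by fun_prop) continuous_const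
    · rw [Set.ofPred_forall]
      exact convex_iInter fun i => convex_halfSpace_le ⟨fun x y => inner_add_left _ _ _,
        fun a x => real_inner_smul_left _ _ _⟩ _
    · refine mem_interior_iff_mem_nhds.2 (mem_of_superset (closedBall_mem_nhds 0 hρ) ?_)
      intro x hx i
      rw [mem_closedBall_zero_iff] at hx
      nlinarith [real_inner_le_norm x (v i), h1 i, norm_nonneg (v i)]
  refine ⟨hK, inrad_le hK fun c σ h0 hc => ?_⟩
  have a : ∀ i, inner ℝ c (v i) + σ / ρ * b ≤ b := fun i => by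
    have v0 : 0 < ‖v i‖ := by
      by_contra h
      nlinarith [h1 i, norm_nonneg (v i)]
    have := hc (a := c + (σ / ‖v i‖) • v i)
      (by simp [norm_smul, abs_of_nonneg h0, v0.ne']) i
    rw [inner_add_left, real_inner_smul_left, real_inner_self_eq_norm_sq] at this
    rw [← h1 i] at this ⊢
    convert this using 2
    field_simp
  have := sum_le_sum fun i (_ : i ∈ univ) => a i
  rw [sum_add_distrib, ← inner_sum, h3, inner_zero_right] at this
  simp only [sum_const, card_univ, Fintype.card_fin, nsmul_eq_mul, zero_add] at this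
  have n0 : (0 : ℝ) < n := by exact_mod_cast hn
  have := le_of_mul_le_mul_left this n0
  rw [← div_le_one hρ]
  nlinarith

theorem tri : ∃ K : Set (E 2), IsBody K ∧ 2 * inrad K / width K ≤ 2 / 3 := by
  have s := Real.sq_sqrt (show (0 : ℝ) ≤ 3 by norm_num)
  have s0 : 0 < Real.sqrt 3 := by positivity
  set t := Real.sqrt 3
  let v : Fin 3 → E 2 := ![!₂[2, 0], !₂[-1, t], !₂[-1, -t]]
  obtain ⟨hK, hr⟩ := poly v 2 100 1 one_pos
    (fun i => by
      rw [one_mul, ← sq_eq_sq₀ (norm_nonneg _) zero_le_two, EuclideanSpace.real_norm_sq_eq]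
      fin_cases i <;> simp [v, s] <;> norm_num)
    (fun x hx => by
      have h0 := hx 0
      have h1 := hx 1
      have h2 := hx 2
      simp [v, PiLp.inner_apply] at h0 h1 h2
      rw [EuclideanSpace.real_norm_sq_eq, Fin.sum_univ_two]
      have : (t * x 1) ^ 2 ≤ 9 := by nlinarith
      rw [mul_pow, s] at this
      nlinarith)
    (by norm_num) (by ext j; fin_cases j <;> simp [v, Fin.sum_univ_three]; norm_num) two_pos
  refine ⟨_, hK, ?_⟩
  have hw := le_width (K := {x : E 2 | ∀ i, inner ℝ x (v i) ≤ 2}) two_pos (t := 3) fun θ hθ => by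
    have m : ∀ j, -v j ∈ {x : E 2 | ∀ i, inner ℝ x (v i) ≤ 2} := fun j i => by
      fin_cases i <;> fin_cases j <;> simp [v, PiLp.inner_apply] <;> nlinarith
    have a := fun j => le_supp hK (m j) θ
    have b := fun j => le_supp hK (m j) (-θ)
    have a0 := a 0; have a1 := a 1; have a2 := a 2
    have b0 := b 0; have b1 := b 1; have b2 := b 2
    have n := congrArg (· ^ 2) hθ
    simp only [EuclideanSpace.real_norm_sq_eq, Fin.sum_univ_two, one_pow] at n
    generalize supp _ θ = p at *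
    generalize supp _ (-θ) = q at *
    simp [v, PiLp.inner_apply] at a0 a1 a2 b0 b1 b2
    by_contra hc
    have e2 : (θ 1 * t) ^ 2 = 3 * θ 1 ^ 2 := by rw [mul_pow, s]; ring
    generalize θ 1 * t = z at *
    have k : ∀ x z : ℝ, 0 ≤ x → 0 ≤ z → 3 * x + z < 3 → 2 * z < 3 → 3 * x ^ 2 + z ^ 2 < 3 := by
      intro x z h1 h2 h3 h4
      nlinarith [mul_nonneg h2 (sub_nonneg.2 h4.le), mul_pos (sub_pos.2 h3)
        (show 0 < 3 - z + 3 * x by linarith)]
    rcases le_total 0 z with h | h <;> rcases le_total 0 (θ 0) with h' | h'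
    · nlinarith [k (θ 0) z h' h (by linarith) (by linarith)]
    · nlinarith [k (-θ 0) z (by linarith) h (by linarith) (by linarith)]
    · nlinarith [k (θ 0) (-z) h' (by linarith) (by linarith) (by linarith)]
    · nlinarith [k (-θ 0) (-z) (by linarith) (by linarith) (by linarith) (by linarith)]
  rw [div_le_div_iff₀ (by linarith) (by norm_num)]
  linarith

theorem tet : ∃ K : Set (E 3), IsBody K ∧ 2 * inrad K / width K ≤ 1 / Real.sqrt 3 := by
  have s := Real.sq_sqrt (show (0 : ℝ) ≤ 3 by norm_num)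
  have s0 : 0 < Real.sqrt 3 := by positivity
  set t := Real.sqrt 3
  let v : Fin 4 → E 3 := ![!₂[1, 1, 1], !₂[1, -1, -1], !₂[-1, 1, -1], !₂[-1, -1, 1]]
  obtain ⟨hK, hr⟩ := poly v 1 100 (1 / t) (by positivity)
    (fun i => by
      rw [div_mul_eq_mul_div, one_mul, div_eq_one_iff_eq s0.ne',
        ← sq_eq_sq₀ (norm_nonneg _) s0.le, EuclideanSpace.real_norm_sq_eq, s]
      fin_cases i <;> simp [v, Fin.sum_univ_three] <;> norm_num)
    (fun x hx => by
      have h0 := hx 0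
      have h1 := hx 1
      have h2 := hx 2
      have h3 := hx 3
      simp [v, PiLp.inner_apply, Fin.sum_univ_three] at h0 h1 h2 h3
      rw [EuclideanSpace.real_norm_sq_eq, Fin.sum_univ_three]
      have : x 0 ^ 2 ≤ 1 := by nlinarith
      have : x 1 ^ 2 ≤ 1 := by nlinarith
      have : x 2 ^ 2 ≤ 1 := by nlinarith
      linarith)
    (by norm_num) (by ext j; fin_cases j <;> simp [v, Fin.sum_univ_four]) one_pos
  refine ⟨_, hK, ?_⟩
  have hw := le_width (K := {x : E 3 | ∀ i, inner ℝ x (v i) ≤ 1}) (by norm_num) (t := 2)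
    fun θ hθ => by
    have m : ∀ j, -v j ∈ {x : E 3 | ∀ i, inner ℝ x (v i) ≤ 1} := fun j i => by
      fin_cases i <;> fin_cases j <;> simp [v, PiLp.inner_apply, Fin.sum_univ_three] <;>
        first | exact (neg_nonpos.2 (sq_nonneg _)).trans zero_le_one | norm_num
    have a := fun j => le_supp hK (m j) θ
    have b := fun j => le_supp hK (m j) (-θ)
    have a0 := a 0; have a1 := a 1; have a2 := a 2; have a3 := a 3
    have b0 := b 0; have b1 := b 1; have b2 := b 2; have b3 := b 3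
    have n := congrArg (· ^ 2) hθ
    simp only [EuclideanSpace.real_norm_sq_eq, Fin.sum_univ_three, one_pow] at n
    generalize supp _ θ = p at *
    generalize supp _ (-θ) = q at *
    simp [v, PiLp.inner_apply, Fin.sum_univ_three] at a0 a1 a2 a3 b0 b1 b2 b3
    have : 1 ≤ p * q := by
      nlinarith [mul_nonneg (show 0 ≤ p + (θ 0 + θ 1 + θ 2) by linarith)
          (show 0 ≤ q - (θ 0 + θ 1 + θ 2) by linarith),
        mul_nonneg (show 0 ≤ p + (θ 0 - θ 1 - θ 2) by linarith)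
          (show 0 ≤ q - (θ 0 - θ 1 - θ 2) by linarith),
        mul_nonneg (show 0 ≤ p + (-θ 0 + θ 1 - θ 2) by linarith)
          (show 0 ≤ q - (-θ 0 + θ 1 - θ 2) by linarith),
        mul_nonneg (show 0 ≤ p + (-θ 0 - θ 1 + θ 2) by linarith)
          (show 0 ≤ q - (-θ 0 - θ 1 + θ 2) by linarith)]
    by_contra hc
    have : 0 ≤ p + q := by linarith
    nlinarith [sq_nonneg (p - q)]
  rw [div_le_iff₀ (by linarith)]
  have : 0 < 1 / t := by positivity
  nlinarith

theorem joint :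
    (∀ d : ℕ, 0 < d → ∀ K : Set (E d), IsBody K → ∀ k : ℕ,
      cK K k ≤ (k + (d + 1)) * (2 * inrad K / width K)) ∧
    (∀ d : ℕ, d = 2 ∨ d = 3 → ∀ K : Set (E d), IsBody K →
      (∀ k : ℕ, k * (2 * inrad K / width K) ≤ cK K k) ∧
      Tendsto (fun k : ℕ => cK K k / k) atTop (𝓝 (2 * inrad K / width K))) ∧
    (∀ d : ℕ, d = 2 ∨ d = 3 → ∀ (c : E d) (ρ : ℝ), 0 < ρ → ∀ k : ℕ, cK (closedBall c ρ) k = k) ∧
    (∀ k : ℕ, k * (2 / 3) ≤ cd 2 k ∧ cd 2 k ≤ (k + 3) * (2 / 3)) ∧
    (∀ k : ℕ, k * (1 / Real.sqrt 3) ≤ cd 3 k ∧ cd 3 k ≤ (k + 4) * (1 / Real.sqrt 3)) ∧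
    Tendsto (fun k : ℕ => cd 2 k / k) atTop (𝓝 (2 / 3)) ∧
    Tendsto (fun k : ℕ => cd 3 k / k) atTop (𝓝 (1 / Real.sqrt 3)) := by
  have h2 : ∀ k : ℕ, k * (2 / 3) ≤ cd 2 k ∧ cd 2 k ≤ (k + 3) * (2 / 3) := fun k => by
    have := cd_lim (d := 2) (γ := 2 / 3) (by simp) (by norm_num) (fun K hK => by
      rw [div_le_div_iff₀ (by norm_num) (width_pos two_pos hK)]
      linarith [stein2 hK]) tri k
    norm_num at this ⊢
    exact this
  have h3 : ∀ k : ℕ, k * (1 / Real.sqrt 3) ≤ cd 3 k ∧ cd 3 k ≤ (k + 4) * (1 / Real.sqrt 3) :=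
    fun k => by
    have := cd_lim (d := 3) (γ := 1 / Real.sqrt 3) (by simp) (by positivity) (fun K hK => by
      rw [div_le_div_iff₀ (by positivity) (width_pos (by norm_num) hK)]
      linarith [stein3 hK]) tet k
    norm_num at this ⊢
    exact this
  exact ⟨fun d hd K hK k => cK_upper hd hK k, fun d hd K hK => ⟨cK_lower hd hK,
    sq_lim (cK_lower hd hK) (cK_upper (by omega) hK)⟩, fun d hd c ρ hρ k => ball_eq hd c hρ k,
    h2, h3, sq_lim (fun k => (h2 k).1) (fun k => (h2 k).2),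
    sq_lim (fun k => (h3 k).1) (fun k => (h3 k).2)⟩

theorem result (d : ℕ) (hd : d = 2 ∨ d = 3) :
    Tendsto (fun k : ℕ => cd d k / k) atTop (𝓝 (if d = 2 then 2 / 3 else 1 / Real.sqrt 3)) :=
  by
  rcases hd with rfl | rfl
  · simpa using joint.2.2.2.2.2.1
  · simpa using joint.2.2.2.2.2.2

end Pool.Agent.Results.MP_4043ba_gt.Universal
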